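import Mathlib

/-!
# Representations on finite dimensional spaces, continuous in the sense of matrix coefficients
-/

set_option autoImplicit false

namespace Pool.Agent.Run7.h293.FB

open Module

variable {K : Type} [Field K] {G : Type*} [Group G] {V : Type*} [AddCommGroup V] [Module K V]

/-- The matrix coefficients of the representation are continuous. -/
def Cont [TopologicalSpace K] [TopologicalSpace G] (ρ : Representation K G V) : Prop :=
  ∀ (φ : Dual K V) (v : V), Continuous fun g => φ (ρ g v)

/-- The subspace `W` is stable. -/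
def Stable (ρ : Representation K G V) (W : Submodule K V) : Prop := ∀ g, ∀ w ∈ W, ρ g w ∈ W

/-- The representation is irreducible. -/
def Irr (ρ : Representation K G V) : Prop :=
  Nontrivial V ∧ ∀ W : Submodule K V, Stable ρ W → W = ⊥ ∨ W = ⊤

/-- The representation on a stable subspace. -/
def sub (ρ : Representation K G V) (W : Submodule K V) (h : Stable ρ W) : Representation K G W where
  toFun g := (ρ g).restrict (h g)
  map_one' := by
    ext x
    simp
  map_mul' g g' := by
    ext x
    simp

@[simp] theorem sub_apply (ρ : Representation K G V) (W : Submodule K V) (h : Stable ρ W) (g : G)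
    (w : W) : (sub ρ W h g w : V) = ρ g w := rfl

/-- The representation on the quotient by a stable subspace. -/
def quo (ρ : Representation K G V) (W : Submodule K V) (h : Stable ρ W) :
    Representation K G (V ⧸ W) where
  toFun g := W.mapQ W (ρ g) (h g)
  map_one' := by
    ext x
    simp
  map_mul' g g' := by
    ext x
    simp

@[simp] theorem quo_mk (ρ : Representation K G V) (W : Submodule K V) (h : Stable ρ W) (g : G)
    (v : V) : quo ρ W h g (W.mkQ v) = W.mkQ (ρ g v) := rfl

theorem Cont.sub [TopologicalSpace K] [TopologicalSpace G] {ρ : Representation K G V} (hρ : Cont ρ)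
    (W : Submodule K V) (h : Stable ρ W) : Cont (sub ρ W h) := by
  intro φ w
  obtain ⟨ψ, hψ⟩ := LinearMap.exists_extend φ
  refine (hρ ψ w).congr fun g => ?_
  have h1 := LinearMap.congr_fun hψ (FB.sub ρ W h g w)
  rw [← h1]
  rfl

theorem Cont.quo [TopologicalSpace K] [TopologicalSpace G] {ρ : Representation K G V} (hρ : Cont ρ)
    (W : Submodule K V) (h : Stable ρ W) : Cont (quo ρ W h) := by
  intro φ w
  obtain ⟨v, rfl⟩ := W.mkQ_surjective w
  exact hρ (φ.comp W.mkQ) v

theorem Cont.comp [TopologicalSpace K] [TopologicalSpace G] {H : Type*} [Group H]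
    [TopologicalSpace H] {ρ : Representation K G V} (hρ : Cont ρ) (f : H →* G)
    (hf : Continuous f) : Cont (ρ.comp f) := fun φ v => (hρ φ v).comp hf

theorem Stable.span {ρ : Representation K G V} {s : Set V} (h : ∀ g, ∀ x ∈ s, ρ g x ∈ s) :
    Stable ρ (Submodule.span K s) := by
  intro g w hw
  induction hw using Submodule.span_induction with
  | mem x hx => exact Submodule.subset_span (h g x hx)
  | zero => rw [map_zero]; exact zero_mem _
  | add x y _ _ hx hy => rw [map_add]; exact add_mem hx hy
  | smul c x _ hx => rw [map_smul]; exact Submodule.smul_mem _ _ hx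

/-- A nonzero finite dimensional representation contains an irreducible one. -/
theorem exists_irr_sub [FiniteDimensional K V] [Nontrivial V] (ρ : Representation K G V) :
    ∃ (W : Submodule K V) (h : Stable ρ W), W ≠ ⊥ ∧ Irr (sub ρ W h) := by
  classical
  have key : ∀ n : ℕ, ∀ W : Submodule K V, Stable ρ W → W ≠ ⊥ → finrank K W = n →
      ∃ (W : Submodule K V) (h : Stable ρ W), W ≠ ⊥ ∧ Irr (sub ρ W h) := by
    intro n
    induction n using Nat.strong_induction_on with
    | _ n ih =>
      intro W hW hne hn
      by_cases hI : Irr (sub ρ W hW)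
      · exact ⟨W, hW, hne, hI⟩
      · have hnt : Nontrivial W := Submodule.nontrivial_iff_ne_bot.2 hne
        have h2 : ∃ U : Submodule K W, Stable (sub ρ W hW) U ∧ U ≠ ⊥ ∧ U ≠ ⊤ := by
          by_contra hcon
          push Not at hcon
          exact hI ⟨hnt, fun U hU => by
            by_cases hb : U = ⊥
            · exact Or.inl hb
            · exact Or.inr (hcon U hU hb)⟩
        obtain ⟨U, hU, hb, ht⟩ := h2
        refine ih (finrank K (U.map W.subtype)) ?_ (U.map W.subtype) ?_ ?_ rfl
        · rw [← hn, LinearEquiv.finrank_eq (Submodule.equivMapOfInjective W.subtype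
            W.injective_subtype U).symm]
          exact Submodule.finrank_lt ht
        · rintro g _ ⟨u, hu, rfl⟩
          exact ⟨sub ρ W hW g u, hU g u hu, rfl⟩
        · intro h0
          apply hb
          rw [Submodule.eq_bot_iff]
          intro u hu
          have h1 : (u : V) ∈ U.map W.subtype := ⟨u, hu, rfl⟩
          rw [h0, Submodule.mem_bot] at h1
          exact Subtype.ext h1
  obtain ⟨v, hv⟩ := exists_ne (0 : V)
  exact key _ ⊤ (fun _ _ _ => Submodule.mem_top) (by
    intro h0
    exact hv ((Submodule.mem_bot K).1 (h0 ▸ Submodule.mem_top))) rfl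

section fibre

variable {Q : Type*} [Group Q] {B : Type*} [AddCommGroup B] [Module K B]

/-- `F : M → Hom(B, V)` is equivariant, where `g` acts on `M` through `p g`. -/
def Pair (p : G →* Q) {M : Type*} [AddCommGroup M] [Module K M] (β : Representation K G B)
    (μ : Representation K Q M) (ρ : Representation K G V) (F : M →ₗ[K] B →ₗ[K] V) : Prop :=
  ∀ g m b, F (μ (p g) m) (β g b) = ρ g (F m b)

/-- The homomorphisms which are equivariant for the kernel of `p`. -/
def fix (p : G →* Q) (β : Representation K G B) (ρ : Representation K G V) :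
    Submodule K (B →ₗ[K] V) where
  carrier := {f | ∀ n ∈ p.ker, ∀ b, f (β n b) = ρ n (f b)}
  add_mem' := by
    intro f f' h h' n hn b
    simp [h n hn b, h' n hn b]
  zero_mem' := by
    intro n _ b
    simp
  smul_mem' := by
    intro c f h n hn b
    simp [h n hn b]

/-- conjugation -/
def conj (β : Representation K G B) (ρ : Representation K G V) (g : G) :
    (B →ₗ[K] V) →ₗ[K] (B →ₗ[K] V) where
  toFun f := (ρ g).comp (f.comp (β g⁻¹))
  map_add' f f' := by
    ext b
    simp
  map_smul' c f := by
    ext b
    simp

@[simp] theorem conj_apply (β : Representation K G B) (ρ : Representation K G V) (g : G)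
    (f : B →ₗ[K] V) (b : B) : conj β ρ g f b = ρ g (f (β g⁻¹ b)) := rfl

theorem inv_apply (β : Representation K G B) (g : G) (b : B) : β g⁻¹ (β g b) = b := by
  rw [← Module.End.mul_apply, ← map_mul, inv_mul_cancel, map_one]
  rfl

theorem apply_inv (β : Representation K G B) (g : G) (b : B) : β g (β g⁻¹ b) = b := by
  rw [← Module.End.mul_apply, ← map_mul, mul_inv_cancel, map_one]
  rfl

theorem mul_apply' (β : Representation K G B) (g h : G) (b : B) : β (g * h) b = β g (β h b) := by
  rw [map_mul]
  rfl

theorem conj_mem {p : G →* Q} {β : Representation K G B} {ρ : Representation K G V} (g : G)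
    {f : B →ₗ[K] V} (hf : f ∈ fix p β ρ) : conj β ρ g f ∈ fix p β ρ := by
  intro n hn b
  have hn' : g⁻¹ * n * g ∈ p.ker := by
    have := (MonoidHom.normal_ker p).conj_mem n hn g⁻¹
    rwa [inv_inv] at this
  have h1 := hf _ hn' (β g⁻¹ b)
  rw [conj_apply, conj_apply]
  have h2 : β g⁻¹ (β n b) = β (g⁻¹ * n * g) (β g⁻¹ b) := by
    rw [mul_apply', mul_apply', apply_inv]
  rw [h2, h1, mul_apply', mul_apply', apply_inv]

theorem conj_ker {p : G →* Q} {β : Representation K G B} {ρ : Representation K G V} {n : G}
    (hn : n ∈ p.ker) {f : B →ₗ[K] V} (hf : f ∈ fix p β ρ) : conj β ρ n f = f := by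
  ext b
  rw [conj_apply, ← hf n hn, apply_inv]

theorem conj_mul (β : Representation K G B) (ρ : Representation K G V) (g h : G)
    (f : B →ₗ[K] V) : conj β ρ (g * h) f = conj β ρ g (conj β ρ h f) := by
  ext b
  simp only [conj_apply]
  rw [mul_inv_rev, mul_apply', mul_apply']

theorem conj_eq {p : G →* Q} {β : Representation K G B} {ρ : Representation K G V} {g h : G}
    (hgh : p g = p h) {f : B →ₗ[K] V} (hf : f ∈ fix p β ρ) : conj β ρ g f = conj β ρ h f := by
  have h1 : h⁻¹ * g ∈ p.ker := by
    rw [MonoidHom.mem_ker, map_mul, map_inv, hgh, inv_mul_cancel]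
  have h2 : g = h * (h⁻¹ * g) := by group
  rw [h2, conj_mul, conj_ker h1 hf]

/-- The representation of the quotient group on `Hom_N(B, V)`. -/
noncomputable def act {p : G →* Q} (hp : Function.Surjective p) (β : Representation K G B)
    (ρ : Representation K G V) : Representation K Q (fix p β ρ) where
  toFun q := (conj β ρ (Function.surjInv hp q)).restrict fun _ hf => conj_mem _ hf
  map_one' := by
    ext f b
    have h1 : p (Function.surjInv hp 1) = p 1 := by rw [Function.surjInv_eq hp, map_one]
    simp only [LinearMap.restrict_apply, Module.End.one_apply]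
    rw [conj_eq h1 f.2, conj_apply, inv_one, map_one, map_one]
    rfl
  map_mul' q q' := by
    ext f b
    have h1 : p (Function.surjInv hp (q * q')) =
        p (Function.surjInv hp q * Function.surjInv hp q') := by
      rw [map_mul, Function.surjInv_eq hp, Function.surjInv_eq hp, Function.surjInv_eq hp]
    simp only [LinearMap.restrict_apply, Module.End.mul_apply]
    rw [conj_eq h1 f.2, conj_mul]

theorem act_apply {p : G →* Q} (hp : Function.Surjective p) (β : Representation K G B)
    (ρ : Representation K G V) (g : G) (f : fix p β ρ) :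
    (act hp β ρ (p g) f : B →ₗ[K] V) = conj β ρ g f := by
  have h1 : p (Function.surjInv hp (p g)) = p g := Function.surjInv_eq hp _
  exact conj_eq h1 f.2

theorem pair_act {p : G →* Q} (hp : Function.Surjective p) (β : Representation K G B)
    (ρ : Representation K G V) : Pair p β (act hp β ρ) ρ (fix p β ρ).subtype := by
  intro g m b
  rw [Submodule.subtype_apply, Submodule.subtype_apply, act_apply, conj_apply, inv_apply]

/-- a functional on `Hom(B, V)` in coordinates -/
theorem dual_hom [FiniteDimensional K B] [FiniteDimensional K V] (Φ : Dual K (B →ₗ[K] V))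
    (f : B →ₗ[K] V) : Φ f = ∑ j, ∑ i, (finBasis K V).coord i (f (finBasis K B j)) *
      Φ (((finBasis K B).coord j).smulRight (finBasis K V i)) := by
  have h1 : f = ∑ j, ∑ i, (finBasis K V).coord i (f (finBasis K B j)) •
      (((finBasis K B).coord j).smulRight (finBasis K V i)) := by
    apply (finBasis K B).ext
    intro k
    simp only [LinearMap.sum_apply, LinearMap.smul_apply, LinearMap.smulRight_apply,
      Basis.coord_apply, Basis.repr_self]
    rw [Finset.sum_eq_single k]
    · rw [Finsupp.single_eq_same]
      simp only [one_smul]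
      exact ((finBasis K V).sum_repr _).symm
    · intro j _ hj
      rw [Finsupp.single_eq_of_ne (by tauto)]
      simp
    · intro h
      exact absurd (Finset.mem_univ k) h
  conv_lhs => rw [h1]
  simp only [map_sum, map_smul, smul_eq_mul]

theorem cont_act [TopologicalSpace K] [IsTopologicalRing K] [TopologicalSpace G]
    [IsTopologicalGroup G] [TopologicalSpace Q] [FiniteDimensional K B] [FiniteDimensional K V]
    {p : G →* Q} (hp : Topology.IsQuotientMap p) {β : Representation K G B}
    {ρ : Representation K G V} (hβ : Cont β) (hρ : Cont ρ) :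
    Cont (act hp.surjective β ρ) := by
  intro φ m
  obtain ⟨Φ, hΦ⟩ := LinearMap.exists_extend φ
  rw [hp.continuous_iff]
  have h1 : ((fun q => φ (act hp.surjective β ρ q m)) ∘ p) = fun g => Φ (conj β ρ g m) := by
    funext g
    have h2 := LinearMap.congr_fun hΦ (act hp.surjective β ρ (p g) m)
    simp only [Function.comp_apply]
    rw [← h2, LinearMap.comp_apply, Submodule.subtype_apply, act_apply]
  rw [h1]
  have h3 : ∀ (b : B) (ψ : Dual K V), Continuous fun g => ψ (conj β ρ g m b) := by
    intro b ψ
    have h4 : ∀ g, ψ (conj β ρ g m b) = ∑ j, (finBasis K B).coord j (β g⁻¹ b) *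
        ψ (ρ g ((m : B →ₗ[K] V) (finBasis K B j))) := by
      intro g
      rw [conj_apply]
      conv_lhs => rw [← (finBasis K B).sum_repr (β g⁻¹ b)]
      simp only [map_sum, map_smul, smul_eq_mul, Basis.coord_apply]
    simp only [h4]
    refine continuous_finsetSum _ fun j _ => Continuous.mul ?_ ?_
    · exact (hβ ((finBasis K B).coord j) b).comp continuous_inv
    · exact hρ ψ _
  have h5 : Continuous fun g => ∑ j, ∑ i, (finBasis K V).coord i (conj β ρ g m (finBasis K B j)) *
      Φ (((finBasis K B).coord j).smulRight (finBasis K V i)) :=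
    continuous_finsetSum _ fun j _ => continuous_finsetSum _ fun i _ =>
      (h3 _ _).mul continuous_const
  exact h5.congr fun g => (dual_hom Φ _).symm

/-- **Dévissage**: `M` can be replaced by an irreducible representation. -/
theorem exists_irr_pair [TopologicalSpace K] [TopologicalSpace Q] {p : G →* Q}
    {β : Representation K G B} {ρ : Representation K G V} (n : ℕ) :
    ∀ (M : Type) [AddCommGroup M] [Module K M] [FiniteDimensional K M]
      (μ : Representation K Q M) (F : M →ₗ[K] B →ₗ[K] V), finrank K M = n → Cont μ →
      Pair p β μ ρ F → F ≠ 0 →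
    ∃ (M' : Type) (_ : AddCommGroup M') (_ : Module K M') (_ : FiniteDimensional K M')
      (μ' : Representation K Q M') (F' : M' →ₗ[K] B →ₗ[K] V), Cont μ' ∧ Irr μ' ∧
      Pair p β μ' ρ F' ∧ F' ≠ 0 := by
  classical
  induction n using Nat.strong_induction_on with
  | _ n ih =>
    intro M _ _ _ μ F hn hμ hF h0
    by_cases hI : Irr μ
    · exact ⟨M, _, _, inferInstance, μ, F, hμ, hI, hF, h0⟩
    · have hnt : Nontrivial M := by
        by_contra hcon
        rw [not_nontrivial_iff_subsingleton] at hcon
        exact h0 (by ext m; rw [Subsingleton.elim m 0]; simp)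
      have h2 : ∃ U : Submodule K M, Stable μ U ∧ U ≠ ⊥ ∧ U ≠ ⊤ := by
        by_contra hcon
        push Not at hcon
        exact hI ⟨hnt, fun U hU => by
          by_cases hb : U = ⊥
          · exact Or.inl hb
          · exact Or.inr (hcon U hU hb)⟩
      obtain ⟨U, hU, hb, ht⟩ := h2
      by_cases h3 : F.comp U.subtype = 0
      · -- factor through the quotient
        have h4 : U ≤ LinearMap.ker F := by
          intro u hu
          have := LinearMap.congr_fun h3 ⟨u, hu⟩
          exact this
        refine ih (finrank K (M ⧸ U)) ?_ (M ⧸ U) (quo μ U hU) (U.liftQ F h4) rfl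
          (hμ.quo U hU) ?_ ?_
        · have h5 := U.finrank_quotient_add_finrank
          have h6 : 0 < finrank K U := by
            rw [Nat.pos_iff_ne_zero]
            intro h7
            exact hb (Submodule.finrank_eq_zero.1 h7)
          omega
        · intro g m b
          obtain ⟨m, rfl⟩ := U.mkQ_surjective m
          rw [quo_mk]
          exact hF g m b
        · intro h5
          apply h0
          ext m b
          have := LinearMap.congr_fun (LinearMap.congr_fun h5 (U.mkQ m)) b
          exact this
      · refine ih (finrank K U) ?_ U (sub μ U hU) (F.comp U.subtype) rfl (hμ.sub U hU) ?_ h3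
        · rw [← hn]
          exact Submodule.finrank_lt ht
        · intro g m b
          exact hF g m b

/-- the map `B ⊗ M → V` given by `F` -/
noncomputable def lift {M : Type*} [AddCommGroup M] [Module K M] (F : M →ₗ[K] B →ₗ[K] V) :
    TensorProduct K B M →ₗ[K] V := TensorProduct.lift F.flip

theorem lift_equi {p : G →* Q} {M : Type*} [AddCommGroup M] [Module K M]
    {β : Representation K G B} {μ : Representation K Q M} {ρ : Representation K G V}
    {F : M →ₗ[K] B →ₗ[K] V} (hF : Pair p β μ ρ F) (g : G) (x : TensorProduct K B M) :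
    lift F (TensorProduct.map (β g) (μ (p g)) x) = ρ g (lift F x) := by
  induction x using TensorProduct.induction_on with
  | zero => simp
  | tmul b m =>
    have := hF g m b
    simpa [lift] using this
  | add x y hx hy => rw [map_add, map_add, map_add, map_add, hx, hy]

/-- the image of `B ⊗ M → V` -/
noncomputable def img {M : Type*} [AddCommGroup M] [Module K M] (F : M →ₗ[K] B →ₗ[K] V) :
    Submodule K V := LinearMap.range (lift F)

theorem img_stable {p : G →* Q} {M : Type*} [AddCommGroup M] [Module K M]
    {β : Representation K G B} {μ : Representation K Q M} {ρ : Representation K G V}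
    {F : M →ₗ[K] B →ₗ[K] V} (hF : Pair p β μ ρ F) : Stable ρ (img F) := by
  rintro g _ ⟨x, rfl⟩
  exact ⟨TensorProduct.map (β g) (μ (p g)) x, lift_equi hF g x⟩

theorem img_ne {M : Type*} [AddCommGroup M] [Module K M] {F : M →ₗ[K] B →ₗ[K] V}
    (hF : F ≠ 0) : img F ≠ ⊥ := by
  intro h
  apply hF
  ext m b
  have h1 : lift F (b ⊗ₜ[K] m) ∈ img F := ⟨_, rfl⟩
  rw [h, Submodule.mem_bot] at h1
  simpa [lift] using h1

end fibre

end Pool.Agent.Run7.h293.FB
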