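import Pool.Agent.Run7.h293.FB.Basic

/-!
# Representations of fundamental groups of varieties over finite fields and geometric origin
-/

set_option autoImplicit false

namespace Pool.Agent.Run7.h293.FB

open Module

/-- The twist of `ρ` by the character `χ`. -/
def twist {K : Type} [Field K] {G : Type*} [Group G] {V : Type*} [AddCommGroup V] [Module K V]
    (χ : G →* Kˣ) (ρ : Representation K G V) : Representation K G V where
  toFun g := (χ g : K) • ρ g
  map_one' := by
    ext v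
    simp
  map_mul' g h := by
    ext v
    simp only [map_mul, Units.val_mul, Module.End.mul_apply, LinearMap.smul_apply, map_smul]
    rw [smul_smul, mul_comm]

@[simp] theorem twist_apply {K : Type} [Field K] {G : Type*} [Group G] {V : Type*}
    [AddCommGroup V] [Module K V] (χ : G →* Kˣ) (ρ : Representation K G V) (g : G) (v : V) :
    twist χ ρ g v = (χ g : K) • ρ g v := rfl

theorem tprod_twist {K : Type} [Field K] {G Q : Type*} [Group G] [Group Q] {B M : Type*}
    [AddCommGroup B] [Module K B] [AddCommGroup M] [Module K M] (χ₀ : G →* Kˣ) (χ₁ : Q →* Kˣ)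
    (p : G →* Q) (β : Representation K G B) (μ : Representation K Q M) (g : G)
    (x : TensorProduct K B M) :
    ((twist χ₀ β).tprod ((twist χ₁ μ).comp p)) g x =
      ((χ₀ g : K) * (χ₁ (p g) : K)) • TensorProduct.map (β g) (μ (p g)) x := by
  induction x using TensorProduct.induction_on with
  | zero => simp
  | tmul b m =>
    rw [Representation.tprod_apply, TensorProduct.map_tmul, TensorProduct.map_tmul]
    rw [MonoidHom.comp_apply, twist_apply, twist_apply, TensorProduct.smul_tmul_smul]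
  | add x y hx hy => rw [map_add, hx, hy, map_add, smul_add]

/-- Finite dimensional representations of `G` over `K`. -/
structure FRep (K : Type) [Field K] (G : Type) [Group G] where
  /-- the space -/
  V : Type
  [acg : AddCommGroup V]
  [mod : Module K V]
  [fin : FiniteDimensional K V]
  /-- the action -/
  ρ : Representation K G V

attribute [instance] FRep.acg FRep.mod FRep.fin

namespace FRep

variable {K : Type} [Field K] {G : Type} [Group G]

/-- restriction along a homomorphism of groups -/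
abbrev comap {H : Type} [Group H] (R : FRep K G) (f : H →* G) : FRep K H := ⟨R.V, R.ρ.comp f⟩

/-- twist by a character -/
abbrev tw (R : FRep K G) (χ : G →* Kˣ) : FRep K G := ⟨R.V, twist χ R.ρ⟩

/-- tensor product -/
noncomputable abbrev tensor (R R' : FRep K G) : FRep K G := ⟨TensorProduct K R.V R'.V, R.ρ.tprod R'.ρ⟩

/-- `f` is a homomorphism of representations -/
def Equi (R R' : FRep K G) (f : R.V →ₗ[K] R'.V) : Prop := ∀ g v, f (R.ρ g v) = R'.ρ g (f v)

/-- `R'` is isomorphic to a subrepresentation of `R`. -/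
def IsSub (R' R : FRep K G) : Prop := ∃ i : R'.V →ₗ[K] R.V, Function.Injective i ∧ R'.Equi R i

/-- `R'` is isomorphic to a quotient of `R`. -/
def IsQuot (R' R : FRep K G) : Prop := ∃ π : R.V →ₗ[K] R'.V, Function.Surjective π ∧ R.Equi R' π

/-- the matrix coefficients are continuous -/
def Continuous [TopologicalSpace K] [TopologicalSpace G] (R : FRep K G) : Prop := Cont R.ρ

/-- irreducible -/
def Irreducible (R : FRep K G) : Prop := Irr R.ρ

/-- The determinant is of finite order. -/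
def FiniteDet (R : FRep K G) : Prop := ∃ n : ℕ, 0 < n ∧ ∀ g, (LinearMap.det (R.ρ g)) ^ n = 1

/-- The subrepresentation on a stable subspace. -/
abbrev onSub (R : FRep K G) (W : Submodule K R.V) (h : Stable R.ρ W) : FRep K G := ⟨W, sub R.ρ W h⟩

/-- The class `C` of representations is closed under subrepresentations, quotients and tensor
products. -/
structure Closed (C : Set (FRep K G)) : Prop where
  sub : ∀ R R', R ∈ C → IsSub R' R → R' ∈ C
  quot : ∀ R R', R ∈ C → IsQuot R' R → R' ∈ C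
  tensor : ∀ R R', R ∈ C → R' ∈ C → R.tensor R' ∈ C

/-- A twist of `R` by a character in `D` is in the class `C`. -/
def UpTo (C : Set (FRep K G)) (D : Subgroup (G →* Kˣ)) (R : FRep K G) : Prop :=
  ∃ χ ∈ D, R.tw χ ∈ C

end FRep

open FRep

/-- Varieties, their fundamental groups, and the homomorphisms between them which are given by
dominant morphisms and by fibrations. -/
structure Varieties where
  /-- the varieties -/
  Obj : Type
  /-- the fundamental group -/
  grp : Obj → Type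
  [group : ∀ X, Group (grp X)]
  [top : ∀ X, TopologicalSpace (grp X)]
  [tgrp : ∀ X, IsTopologicalGroup (grp X)]
  /-- the curves -/
  Curve : Obj → Prop
  /-- the homomorphisms `π₁(X) → π₁(Y)` given by dominant morphisms `X → Y` -/
  Dom : ∀ {X Y : Obj}, (grp X →* grp Y) → Prop
  /-- they are continuous -/
  dom_cont : ∀ {X Y : Obj} {f : grp X →* grp Y}, Dom f → Continuous f
  /-- composition -/
  dom_comp : ∀ {X Y Z : Obj} {f : grp X →* grp Y} {g : grp Y →* grp Z}, Dom f → Dom g →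
    Dom (g.comp f)
  /-- the homomorphisms `π₁(U) → π₁(S)` given by fibrations with geometrically connected fibres -/
  Fib : ∀ {U S : Obj}, (grp U →* grp S) → Prop
  /-- fibrations are dominant -/
  fib_dom : ∀ {U S : Obj} {p : grp U →* grp S}, Fib p → Dom p
  /-- the fundamental group of the base is a topological quotient -/
  fib_quot : ∀ {U S : Obj} {p : grp U →* grp S}, Fib p → Topology.IsQuotientMap p

attribute [instance] Varieties.group Varieties.top Varieties.tgrp

namespace Varieties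

/-- `P` is the product of `X` and `Y`, `p₁` and `p₂` are the projections, and `σ` is given by a
rational point of `Y`. The last condition is the Künneth formula for the fundamental group. -/
structure IsProduct (𝒱 : Varieties) (X Y P : 𝒱.Obj) (p₁ : 𝒱.grp P →* 𝒱.grp X)
    (p₂ : 𝒱.grp P →* 𝒱.grp Y) (σ : 𝒱.grp X →* 𝒱.grp P) : Prop where
  dom : 𝒱.Dom p₁
  fib : 𝒱.Fib p₂
  cont : Continuous σ
  kunneth : ∀ n ∈ p₂.ker, σ (p₁ n) = n

/-- The varieties which are obtained from curves by taking products and images under dominant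
morphisms. -/
inductive Built (𝒱 : Varieties) : 𝒱.Obj → Prop
  | curve (X : 𝒱.Obj) : 𝒱.Curve X → Built 𝒱 X
  | prod (X Y P : 𝒱.Obj) (p₁ : 𝒱.grp P →* 𝒱.grp X) (p₂ : 𝒱.grp P →* 𝒱.grp Y)
      (σ : 𝒱.grp X →* 𝒱.grp P) : 𝒱.IsProduct X Y P p₁ p₂ σ → Built 𝒱 X → Built 𝒱 Y → Built 𝒱 P
  | dominated (X' X : 𝒱.Obj) (f : 𝒱.grp X' →* 𝒱.grp X) : 𝒱.Dom f → Built 𝒱 X' → Built 𝒱 X

end Varieties

/-- Formal properties of the representations of geometric origin with coefficients in `K = ℚ̄_l` of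
the fundamental groups of the smooth varieties over finite fields of characteristic `p ≠ l`. The
varieties are geometrically connected over a finite field and either all proper, and `grp` is the
fundamental group, or `grp` is the tame fundamental group. -/
structure Origin (K : Type) [Field K] [TopologicalSpace K] (𝒱 : Varieties) where
  /-- the representations with a Tate twist which is a subquotient of the cohomology of a variety
  over the function field -/
  orig : ∀ X : 𝒱.Obj, Set (FRep K (𝒱.grp X))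
  /-- subquotients and tensor products -/
  closed : ∀ X, Closed (orig X)
  /-- the characters which come from the finite field -/
  const : ∀ X : 𝒱.Obj, Subgroup (𝒱.grp X →* Kˣ)
  /-- the pullback of a representation of geometric origin is of geometric origin -/
  dom_orig : ∀ {X Y : 𝒱.Obj} {f : 𝒱.grp X →* 𝒱.grp Y}, 𝒱.Dom f → ∀ R ∈ orig Y,
    R.comap f ∈ orig X
  /-- the pullback of a constant character is constant -/
  dom_const : ∀ {X Y : 𝒱.Obj} {f : 𝒱.grp X →* 𝒱.grp Y}, 𝒱.Dom f → ∀ χ ∈ const Y,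
    χ.comp f ∈ const X
  /-- direct images: an irreducible representation of `π₁(X)` is of geometric origin up to a constant
  twist if its restriction to `π₁(X')` has such a subrepresentation `W ≠ 0` -/
  descend : ∀ {X' X : 𝒱.Obj} {f : 𝒱.grp X' →* 𝒱.grp X}, 𝒱.Dom f → ∀ R : FRep K (𝒱.grp X),
    R.Continuous → R.Irreducible → ∀ W : FRep K (𝒱.grp X'), Nontrivial W.V →
    IsSub W (R.comap f) → UpTo (orig X') (const X') W → UpTo (orig X) (const X) R
  /-- Lafforgue's theorem, with Deligne's theorem that an irreducible representation has a constant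
  twist whose determinant is of finite order -/
  lafforgue : ∀ X, 𝒱.Curve X → ∀ R : FRep K (𝒱.grp X), R.Continuous → R.Irreducible →
    UpTo (orig X) (const X) R
  /-- if the determinant is of finite order no twist is necessary (Deligne; Honda and Tate) -/
  weil : ∀ X, ∀ R : FRep K (𝒱.grp X), R.Continuous → R.Irreducible → R.FiniteDet →
    UpTo (orig X) (const X) R → R ∈ orig X

namespace Origin

variable {K : Type} [Field K] [TopologicalSpace K] {𝒱 : Varieties} (𝒪 : Origin K 𝒱)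

/-- A constant twist of `R` is of geometric origin. -/
def Tw (X : 𝒱.Obj) (R : FRep K (𝒱.grp X)) : Prop := UpTo (𝒪.orig X) (𝒪.const X) R

/-- Every irreducible representation is of geometric origin up to a constant twist. -/
def AllTw (X : 𝒱.Obj) : Prop := ∀ R : FRep K (𝒱.grp X), R.Continuous → R.Irreducible → 𝒪.Tw X R

/-- The homomorphism `φ` from the representation `B` of `π₁(U)` to the representation `R` of
`π₁(X)` is equivariant for the kernel of `p` (the fundamental group of the geometric generic fibre of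
`U → S`). -/
def FibreMap {U X S : 𝒱.Obj} (f : 𝒱.grp U →* 𝒱.grp X) (p : 𝒱.grp U →* 𝒱.grp S)
    (B : FRep K (𝒱.grp U)) (R : FRep K (𝒱.grp X)) (φ : B.V →ₗ[K] R.V) : Prop :=
  ∀ n ∈ p.ker, ∀ b, φ (B.ρ n b) = R.ρ (f n) (φ b)

/-- Restriction to the geometric generic fibre of a fibration over a curve, and spreading out. -/
structure Spreading where
  /-- the restriction of the representation of `π₁(U)` to the geometric generic fibre of the
  fibration `U → S` is of geometric origin -/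
  FibOrig : ∀ {U S : 𝒱.Obj} (_ : 𝒱.grp U →* 𝒱.grp S), Set (FRep K (𝒱.grp U))
  /-- spreading out: there are a dominant morphism `U' → U` and a fibration `U' → S'` over a curve
  (a covering of an open subset of `S`) and a representation of geometric origin of `π₁(U')` with
  a nonzero homomorphism to `R` on the geometric generic fibre of `U' → S'` -/
  spread : ∀ {U S : 𝒱.Obj} {p : 𝒱.grp U →* 𝒱.grp S}, 𝒱.Fib p → 𝒱.Curve S →
    ∀ R ∈ FibOrig p, R.Continuous → Nontrivial R.V →
    ∃ (U' S' : 𝒱.Obj) (g : 𝒱.grp U' →* 𝒱.grp U) (p' : 𝒱.grp U' →* 𝒱.grp S'),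
      𝒱.Dom g ∧ 𝒱.Fib p' ∧ 𝒱.Curve S' ∧
      ∃ B ∈ 𝒪.orig U', B.Continuous ∧ ∃ φ : B.V →ₗ[K] R.V, φ ≠ 0 ∧ FibreMap g p' B R φ

variable {𝒪}

/-- `B ⊗ M → V` -/
theorem tw_img {U S : 𝒱.Obj} {p : 𝒱.grp U →* 𝒱.grp S} (hp : 𝒱.Fib p) {B R : FRep K (𝒱.grp U)}
    {M : FRep K (𝒱.grp S)} {F : M.V →ₗ[K] B.V →ₗ[K] R.V} (hF : Pair p B.ρ M.ρ R.ρ F)
    (hβ : 𝒪.Tw U B) (hμ : 𝒪.Tw S M) : 𝒪.Tw U (R.onSub (img F) (img_stable hF)) := by
  obtain ⟨χ₀, h0, h1⟩ := hβ
  obtain ⟨χ₁, h2, h3⟩ := hμ
  refine ⟨χ₀ * χ₁.comp p, mul_mem h0 (𝒪.dom_const (𝒱.fib_dom hp) χ₁ h2), ?_⟩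
  have h4 := (𝒪.closed U).tensor _ _ h1 (𝒪.dom_orig (𝒱.fib_dom hp) _ h3)
  refine (𝒪.closed U).quot _ _ h4 ⟨LinearMap.rangeRestrict (lift F),
    LinearMap.surjective_rangeRestrict _, ?_⟩
  intro g x
  apply Subtype.ext
  have h6 := tprod_twist χ₀ χ₁ p B.ρ M.ρ g x
  change lift F (((twist χ₀ B.ρ).tprod ((twist χ₁ M.ρ).comp p)) g x) = _
  rw [h6, map_smul, lift_equi hF g x]
  rfl

theorem core [IsTopologicalRing K] {U S : 𝒱.Obj} {p : 𝒱.grp U →* 𝒱.grp S} (hp : 𝒱.Fib p)
    (hS : 𝒪.AllTw S) {B R : FRep K (𝒱.grp U)} (hρ : R.Continuous) (hβ : B.Continuous)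
    (hB : 𝒪.Tw U B) {φ : B.V →ₗ[K] R.V} (hφ : φ ≠ 0)
    (hN : ∀ n ∈ p.ker, ∀ b, φ (B.ρ n b) = R.ρ n (φ b)) :
    ∃ (W : Submodule K R.V) (h : Stable R.ρ W), W ≠ ⊥ ∧ 𝒪.Tw U (R.onSub W h) := by
  have hq := 𝒱.fib_quot hp
  have hφ' : φ ∈ fix p B.ρ R.ρ := hN
  obtain ⟨M, _, _, _, μ, F, h1, h2, h3, h4⟩ := exists_irr_pair (p := p) (β := B.ρ) (ρ := R.ρ)
    (finrank K (fix p B.ρ R.ρ)) (fix p B.ρ R.ρ) (act hq.surjective B.ρ R.ρ)
    (fix p B.ρ R.ρ).subtype rfl (cont_act hq hβ hρ) (pair_act hq.surjective B.ρ R.ρ)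
    (fun h0 => hφ (LinearMap.congr_fun h0 ⟨φ, hφ'⟩))
  exact ⟨img F, img_stable h3, img_ne h4,
    tw_img (M := ⟨M, μ⟩) hp h3 hB (hS ⟨M, μ⟩ h1 h2)⟩

omit [TopologicalSpace K] in
theorem isSub_onSub {G : Type} [Group G] (R : FRep K G) (W : Submodule K R.V)
    (h : Stable R.ρ W) : IsSub (R.onSub W h) R :=
  ⟨W.subtype, W.injective_subtype, fun _ _ => rfl⟩

omit [TopologicalSpace K] in
theorem nontrivial_onSub {G : Type} [Group G] (R : FRep K G) (W : Submodule K R.V)
    (h : Stable R.ρ W) (hW : W ≠ ⊥) : Nontrivial (R.onSub W h).V :=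
  Submodule.nontrivial_iff_ne_bot.2 hW

theorem cont_comap {X Y : 𝒱.Obj} {f : 𝒱.grp X →* 𝒱.grp Y} {R : FRep K (𝒱.grp Y)}
    (hR : R.Continuous) (hf : Continuous f) : (R.comap f).Continuous := Cont.comp hR f hf

/-- **The criterion.** -/
theorem fibration [IsTopologicalRing K] {X U S : 𝒱.Obj} {f : 𝒱.grp U →* 𝒱.grp X} (hf : 𝒱.Dom f)
    {p : 𝒱.grp U →* 𝒱.grp S} (hp : 𝒱.Fib p) (hS : 𝒪.AllTw S) {R : FRep K (𝒱.grp X)}
    (hρ : R.Continuous) (hI : R.Irreducible) {B : FRep K (𝒱.grp U)} (hβ : B.Continuous)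
    (hB : 𝒪.Tw U B) {φ : B.V →ₗ[K] R.V} (hφ : φ ≠ 0) (hN : FibreMap f p B R φ) : 𝒪.Tw X R := by
  obtain ⟨W, h, h1, h2⟩ := core (R := R.comap f) hp hS (cont_comap hρ (𝒱.dom_cont hf)) hβ hB
    (φ := φ) hφ hN
  exact 𝒪.descend hf R hρ hI _ (nontrivial_onSub (R.comap f) W h h1)
    (isSub_onSub (R.comap f) W h) h2

theorem tw_of_sub {X : 𝒱.Obj} {R : FRep K (𝒱.grp X)} (hI : R.Irreducible) {W : Submodule K R.V}
    {h : Stable R.ρ W} (hW : W ≠ ⊥) (hT : 𝒪.Tw X (R.onSub W h)) : 𝒪.Tw X R := by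
  obtain ⟨χ, h1, h2⟩ := hT
  have h3 : W = ⊤ := (hI.2 W h).resolve_left hW
  refine ⟨χ, h1, (𝒪.closed X).quot _ _ h2 ⟨W.subtype, ?_, ?_⟩⟩
  · intro v
    exact ⟨⟨v, h3 ▸ Submodule.mem_top⟩, rfl⟩
  · intro g v
    rfl

theorem product [IsTopologicalRing K] {X Y P : 𝒱.Obj} {p₁ : 𝒱.grp P →* 𝒱.grp X}
    {p₂ : 𝒱.grp P →* 𝒱.grp Y} {σ : 𝒱.grp X →* 𝒱.grp P} (hP : 𝒱.IsProduct X Y P p₁ p₂ σ)
    (hX : 𝒪.AllTw X) (hY : 𝒪.AllTw Y) : 𝒪.AllTw P := by
  intro R hρ hI
  have hnt : Nontrivial R.V := hI.1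
  obtain ⟨W, hW, hW0, hW1⟩ := exists_irr_sub (R.comap σ).ρ
  have hc : ((R.comap σ).onSub W hW).Continuous := Cont.sub (Cont.comp hρ σ hP.cont) W hW
  obtain ⟨χ, h1, h2⟩ := hX _ hc hW1
  have h3 : 𝒪.Tw P (((R.comap σ).onSub W hW).comap p₁) :=
    ⟨χ.comp p₁, 𝒪.dom_const hP.dom χ h1, 𝒪.dom_orig hP.dom _ h2⟩
  obtain ⟨W', h, h4, h5⟩ := core hP.fib hY hρ (cont_comap hc (𝒱.dom_cont hP.dom)) h3
    (φ := W.subtype) (fun h0 => hW0 (by
      rw [Submodule.eq_bot_iff]
      intro w hw
      exact LinearMap.congr_fun h0 ⟨w, hw⟩)) (fun n hn b => by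
        change R.ρ (σ (p₁ n)) (b.1 : R.V) = R.ρ n b.1
        rw [hP.kunneth n hn])
  exact tw_of_sub hI h4 h5

theorem allTw_of_built [IsTopologicalRing K] {X : 𝒱.Obj} (hX : 𝒱.Built X) : 𝒪.AllTw X := by
  induction hX with
  | curve X h => exact fun R hρ hI => 𝒪.lafforgue X h R hρ hI
  | prod X Y P p₁ p₂ σ hP _ _ hX hY => exact product hP hX hY
  | dominated X' X f hf _ hX' =>
    intro R hρ hI
    have hnt : Nontrivial R.V := hI.1
    obtain ⟨W, hW, hW0, hW1⟩ := exists_irr_sub (R.comap f).ρ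
    exact 𝒪.descend hf R hρ hI _ (nontrivial_onSub (R.comap f) W hW hW0)
      (isSub_onSub (R.comap f) W hW)
      (hX' _ (Cont.sub (cont_comap hρ (𝒱.dom_cont hf)) W hW) hW1)

omit [TopologicalSpace K] in
theorem tw_one {G : Type} [Group G] (R : FRep K G) : R.tw 1 = R := by
  have h : twist 1 R.ρ = R.ρ := by
    ext g v
    simp
  unfold FRep.tw
  rw [h]

/-- **Fibrations over curves.** -/
theorem over_curve [IsTopologicalRing K] (T : 𝒪.Spreading) {X U S : 𝒱.Obj}
    {f : 𝒱.grp U →* 𝒱.grp X} (hf : 𝒱.Dom f) {p : 𝒱.grp U →* 𝒱.grp S} (hp : 𝒱.Fib p)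
    (hS : 𝒱.Curve S) {R : FRep K (𝒱.grp X)} (hρ : R.Continuous) (hI : R.Irreducible)
    (h : R.comap f ∈ T.FibOrig p) : 𝒪.Tw X R := by
  have hc := cont_comap hρ (𝒱.dom_cont hf)
  obtain ⟨U', S', g, p', hg, hp', hS', B, hB, hβ, φ, hφ, hN⟩ := T.spread hp hS _ h hc hI.1
  exact fibration (𝒱.dom_comp hg hf) hp' (fun R hρ hI => 𝒪.lafforgue S' hS' R hρ hI) hρ hI hβ
    ⟨1, one_mem _, by rwa [tw_one]⟩ hφ hN

end Origin

end Pool.Agent.Run7.h293.FB
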