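import Pool.Agent.Run7.h293.FB.Defs

/-!
# The relative Fontaine-Mazur conjecture: reduction to curves
-/

set_option autoImplicit false

namespace Pool.Agent.Run7.h293.FB

open Module FRep

/-- The class is closed under sums: `R` belongs to it if `R` is the sum of the images of two
members. -/
def SumClosed {K : Type} [Field K] {G : Type} [Group G] (C : Set (FRep K G)) : Prop :=
  ∀ (R R₁ R₂ : FRep K G) (i₁ : R₁.V →ₗ[K] R.V) (i₂ : R₂.V →ₗ[K] R.V), R₁.Equi R i₁ →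
    R₂.Equi R i₂ → LinearMap.range i₁ ⊔ LinearMap.range i₂ = ⊤ → R₁ ∈ C → R₂ ∈ C → R ∈ C

/-- Every stable subspace has a stable complement. -/
def FRep.Semisimple {K : Type} [Field K] {G : Type} [Group G] (R : FRep K G) : Prop :=
  ∀ W : Submodule K R.V, Stable R.ρ W → ∃ W' : Submodule K R.V, Stable R.ρ W' ∧ IsCompl W W'

/-- For a dominant morphism `U → X` and a fibration `U → S` with `dim S < dim X`, the lisse sheaf `R`
on `X` has on the geometric generic fibre of `U → S` a nonzero homomorphism from a lisse sheaf `B`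
on `U` which is geometrically of geometric origin. -/
def HasChart {K : Type} [Field K] [TopologicalSpace K] {𝒱 : Varieties} (dim : 𝒱.Obj → ℕ)
    (orig : ∀ X : 𝒱.Obj, Set (FRep K (𝒱.grp X))) (X : 𝒱.Obj) (R : FRep K (𝒱.grp X)) : Prop :=
  ∃ (U S : 𝒱.Obj) (f : 𝒱.grp U →* 𝒱.grp X) (p : 𝒱.grp U →* 𝒱.grp S),
    𝒱.Dom f ∧ 𝒱.Fib p ∧ dim S < dim X ∧
      ∃ B ∈ orig U, B.Continuous ∧ ∃ φ : B.V →ₗ[K] R.V, φ ≠ 0 ∧ Origin.FibreMap f p B R φ

/-- `𝒱` is the collection of the smooth geometrically connected varieties over finitely generated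
fields. Formal properties of the class of the lisse sheaves on `X / k` whose restriction to `X_k̄` is
of geometric origin. -/
structure RelOrigin (K : Type) [Field K] [TopologicalSpace K] (𝒱 : Varieties) where
  /-- the dimension -/
  dim : 𝒱.Obj → ℕ
  /-- the lisse sheaves on `X / k` whose restriction to `X_k̄` is of geometric origin -/
  orig : ∀ X : 𝒱.Obj, Set (FRep K (𝒱.grp X))
  /-- subquotients and tensor products -/
  closed : ∀ X, Closed (orig X)
  /-- direct sums -/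
  sum : ∀ X, SumClosed (orig X)
  /-- pullback -/
  dom_orig : ∀ {X Y : 𝒱.Obj} {f : 𝒱.grp X →* 𝒱.grp Y}, 𝒱.Dom f → ∀ R ∈ orig Y,
    R.comap f ∈ orig X
  /-- direct images -/
  descend : ∀ {X' X : 𝒱.Obj} {f : 𝒱.grp X' →* 𝒱.grp X}, 𝒱.Dom f → ∀ R : FRep K (𝒱.grp X),
    R.Continuous → R.Irreducible → ∀ W : FRep K (𝒱.grp X'), Nontrivial W.V →
    IsSub W (R.comap f) → W ∈ orig X' → R ∈ orig X
  /-- the spectrum of a field -/
  point : ∀ X, dim X = 0 → ∀ R : FRep K (𝒱.grp X), R.Continuous → R ∈ orig X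
  /-- the generic fibre `C`, a curve over the function field of the base, of a fibration of an open
  subset of `X` by curves, and spreading out for sheaves which are of geometric origin on the
  geometric generic fibre -/
  fibre : ∀ X, 2 ≤ dim X → ∃ (C : 𝒱.Obj) (j : 𝒱.grp C →* 𝒱.grp X), dim C = 1 ∧ Continuous j ∧
    ∀ R : FRep K (𝒱.grp X), R.Continuous → ∀ W : FRep K (𝒱.grp C), Nontrivial W.V →
      IsSub W (R.comap j) → W ∈ orig C → HasChart dim orig X R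

namespace RelOrigin

variable {K : Type} [Field K] [TopologicalSpace K] {𝒱 : Varieties} (𝒪 : RelOrigin K 𝒱)

/-- The conjecture for the irreducible lisse sheaves on `X`. -/
def Irr (X : 𝒱.Obj) : Prop := ∀ R : FRep K (𝒱.grp X), R.Continuous → R.Irreducible → R ∈ 𝒪.orig X

/-- **The relative Fontaine-Mazur conjecture for the sheaves on `X`**: every semisimple lisse sheaf on
`X` is geometrically of geometric origin. -/
def RFM (X : 𝒱.Obj) : Prop := ∀ R : FRep K (𝒱.grp X), R.Continuous → R.Semisimple → R ∈ 𝒪.orig X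

/-- The varieties which are obtained from those in the class `𝒞` by taking products and images under
dominant morphisms. -/
inductive BuiltFrom (𝒞 : Set 𝒱.Obj) : 𝒱.Obj → Prop
  | base (X : 𝒱.Obj) : X ∈ 𝒞 → BuiltFrom 𝒞 X
  | prod (X Y P : 𝒱.Obj) (p₁ : 𝒱.grp P →* 𝒱.grp X) (p₂ : 𝒱.grp P →* 𝒱.grp Y)
      (σ : 𝒱.grp X →* 𝒱.grp P) : 𝒱.IsProduct X Y P p₁ p₂ σ → BuiltFrom 𝒞 X → BuiltFrom 𝒞 Y →
      BuiltFrom 𝒞 P
  | dominated (X' X : 𝒱.Obj) (f : 𝒱.grp X' →* 𝒱.grp X) : 𝒱.Dom f → BuiltFrom 𝒞 X' →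
      BuiltFrom 𝒞 X

variable {𝒪}

theorem core [IsTopologicalRing K] {U S : 𝒱.Obj} {p : 𝒱.grp U →* 𝒱.grp S} (hp : 𝒱.Fib p)
    (hS : 𝒪.Irr S) {B R : FRep K (𝒱.grp U)} (hρ : R.Continuous) (hβ : B.Continuous)
    (hB : B ∈ 𝒪.orig U) {φ : B.V →ₗ[K] R.V} (hφ : φ ≠ 0)
    (hN : ∀ n ∈ p.ker, ∀ b, φ (B.ρ n b) = R.ρ n (φ b)) :
    ∃ (W : Submodule K R.V) (h : Stable R.ρ W), W ≠ ⊥ ∧ R.onSub W h ∈ 𝒪.orig U := by
  have hq := 𝒱.fib_quot hp
  have hφ' : φ ∈ fix p B.ρ R.ρ := hN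
  obtain ⟨M, _, _, _, μ, F, h1, h2, h3, h4⟩ := exists_irr_pair (p := p) (β := B.ρ) (ρ := R.ρ)
    (finrank K (fix p B.ρ R.ρ)) (fix p B.ρ R.ρ) (act hq.surjective B.ρ R.ρ)
    (fix p B.ρ R.ρ).subtype rfl (cont_act hq hβ hρ) (pair_act hq.surjective B.ρ R.ρ)
    (fun h0 => hφ (LinearMap.congr_fun h0 ⟨φ, hφ'⟩))
  refine ⟨img F, img_stable h3, img_ne h4, ?_⟩
  have h5 : (⟨M, μ⟩ : FRep K (𝒱.grp S)) ∈ 𝒪.orig S := hS ⟨M, μ⟩ h1 h2
  have h6 := (𝒪.closed U).tensor _ _ hB (𝒪.dom_orig (𝒱.fib_dom hp) _ h5)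
  refine (𝒪.closed U).quot _ _ h6 ⟨LinearMap.rangeRestrict (lift F),
    LinearMap.surjective_rangeRestrict _, ?_⟩
  intro g x
  apply Subtype.ext
  exact lift_equi h3 g x

theorem of_chart [IsTopologicalRing K] {X : 𝒱.Obj} (hS : ∀ S, 𝒪.dim S < 𝒪.dim X → 𝒪.Irr S)
    {R : FRep K (𝒱.grp X)} (hR : R.Continuous) (hI : R.Irreducible)
    (h : HasChart 𝒪.dim 𝒪.orig X R) : R ∈ 𝒪.orig X := by
  obtain ⟨U, S, f, p, hf, hp, hd, B, hB, hβ, φ, hφ, hN⟩ := h
  obtain ⟨W, h, h1, h2⟩ := core (R := R.comap f) hp (hS S hd)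
    (Origin.cont_comap hR (𝒱.dom_cont hf)) hβ hB (φ := φ) hφ hN
  exact 𝒪.descend hf R hR hI _ (Origin.nontrivial_onSub (R.comap f) W h h1)
    (Origin.isSub_onSub (R.comap f) W h) h2

/-- **Reduction to curves**, irreducible sheaves. -/
theorem irr_of_curves [IsTopologicalRing K] (hC : ∀ C, 𝒪.dim C = 1 → 𝒪.Irr C) (n : ℕ) :
    ∀ X, 𝒪.dim X = n → 𝒪.Irr X := by
  induction n using Nat.strong_induction_on with
  | _ n ih =>
    intro X hX R hR hI
    rcases Nat.lt_or_ge n 2 with h | h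
    · interval_cases n
      · exact 𝒪.point X hX R hR
      · exact hC X hX R hR hI
    · obtain ⟨C, j, h1, h2, h3⟩ := 𝒪.fibre X (hX ▸ h)
      have hnt : Nontrivial R.V := hI.1
      obtain ⟨W, hW, hW0, hW1⟩ := exists_irr_sub (R.comap j).ρ
      have h4 := hC C h1 ((R.comap j).onSub W hW)
        (Cont.sub (Origin.cont_comap hR h2) W hW) hW1
      exact of_chart (fun S hS => ih (𝒪.dim S) (hX ▸ hS) S rfl) hR hI
        (h3 R hR _ (Origin.nontrivial_onSub (R.comap j) W hW hW0)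
          (Origin.isSub_onSub (R.comap j) W hW) h4)

theorem product [IsTopologicalRing K] {X Y P : 𝒱.Obj} {p₁ : 𝒱.grp P →* 𝒱.grp X}
    {p₂ : 𝒱.grp P →* 𝒱.grp Y} {σ : 𝒱.grp X →* 𝒱.grp P} (hP : 𝒱.IsProduct X Y P p₁ p₂ σ)
    (hX : 𝒪.Irr X) (hY : 𝒪.Irr Y) : 𝒪.Irr P := by
  intro R hρ hI
  have hnt : Nontrivial R.V := hI.1
  obtain ⟨W, hW, hW0, hW1⟩ := exists_irr_sub (R.comap σ).ρ
  have hc : ((R.comap σ).onSub W hW).Continuous := Cont.sub (Cont.comp hρ σ hP.cont) W hW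
  have h3 : ((R.comap σ).onSub W hW).comap p₁ ∈ 𝒪.orig P :=
    𝒪.dom_orig hP.dom _ (hX _ hc hW1)
  obtain ⟨W', h, h4, h5⟩ := core hP.fib hY hρ (Origin.cont_comap hc (𝒱.dom_cont hP.dom)) h3
    (φ := W.subtype) (fun h0 => hW0 (by
      rw [Submodule.eq_bot_iff]
      intro w hw
      exact LinearMap.congr_fun h0 ⟨w, hw⟩)) (fun n hn b => by
        change R.ρ (σ (p₁ n)) (b.1 : R.V) = R.ρ n b.1
        rw [hP.kunneth n hn])
  have h6 : W' = ⊤ := (hI.2 W' h).resolve_left h4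
  exact (𝒪.closed P).quot _ _ h5 ⟨W'.subtype, fun v => ⟨⟨v, h6 ▸ Submodule.mem_top⟩, rfl⟩,
    fun _ _ => rfl⟩

theorem irr_of_built [IsTopologicalRing K] {𝒞 : Set 𝒱.Obj} (h𝒞 : ∀ X ∈ 𝒞, 𝒪.Irr X) {X : 𝒱.Obj}
    (hX : BuiltFrom 𝒞 X) : 𝒪.Irr X := by
  induction hX with
  | base X h => exact h𝒞 X h
  | prod X Y P p₁ p₂ σ hP _ _ hX hY => exact product hP hX hY
  | dominated X' X f hf _ hX' =>
    intro R hρ hI
    have hnt : Nontrivial R.V := hI.1
    obtain ⟨W, hW, hW0, hW1⟩ := exists_irr_sub (R.comap f).ρ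
    exact 𝒪.descend hf R hρ hI _ (Origin.nontrivial_onSub (R.comap f) W hW hW0)
      (Origin.isSub_onSub (R.comap f) W hW)
      (hX' _ (Cont.sub (Origin.cont_comap hρ (𝒱.dom_cont hf)) W hW) hW1)

omit [TopologicalSpace K] in
theorem semisimple_sub {G : Type} [Group G] {R : FRep K G} (hR : R.Semisimple)
    (W : Submodule K R.V) (hW : Stable R.ρ W) : (R.onSub W hW).Semisimple := by
  intro U hU
  obtain ⟨U', hU', hc⟩ := hR (U.map W.subtype) (by
    rintro g _ ⟨u, hu, rfl⟩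
    exact ⟨_, hU g u hu, rfl⟩)
  refine ⟨U'.comap W.subtype, fun g w hw => hU' g _ hw, ?_, ?_⟩
  · rw [Submodule.disjoint_def]
    intro x hx hx'
    have h1 := (Submodule.disjoint_def.1 hc.1) (x : R.V) ⟨x, hx, rfl⟩ hx'
    exact Subtype.ext h1
  · rw [codisjoint_iff, eq_top_iff]
    intro w _
    have h1 : (w : R.V) ∈ U.map W.subtype ⊔ U' := by
      rw [codisjoint_iff.1 hc.2]
      exact Submodule.mem_top
    obtain ⟨a, ha, b, hb, hab⟩ := Submodule.mem_sup.1 h1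
    obtain ⟨u, hu, rfl⟩ := ha
    have h2 : b = ((w - u : W) : R.V) := by
      rw [Submodule.coe_sub, ← hab]
      simp
    refine Submodule.mem_sup.2 ⟨u, hu, w - u, ?_, by abel⟩
    rw [Submodule.mem_comap]
    rw [h2] at hb
    exact hb

/-- a trivial representation -/
def unit (K : Type) [Field K] (G : Type) [Group G] : FRep K G := ⟨K, 1⟩

theorem irr_one {X : 𝒱.Obj} (h : 𝒪.Irr X) : unit K (𝒱.grp X) ∈ 𝒪.orig X := by
  have h1 : (unit K (𝒱.grp X)).Continuous := by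
    intro φ v
    have h2 : (fun g : 𝒱.grp X => φ ((unit K (𝒱.grp X)).ρ g v)) = fun _ => φ v := by
      funext g
      rfl
    rw [h2]
    exact continuous_const
  refine h _ h1 ⟨inferInstanceAs (Nontrivial K), ?_⟩
  intro W _
  exact IsSimpleOrder.eq_bot_or_eq_top (α := Submodule K K) W

theorem rfm_of_irr {X : 𝒱.Obj} (h : 𝒪.Irr X) : 𝒪.RFM X := by
  have key : ∀ (n : ℕ) (R : FRep K (𝒱.grp X)), finrank K R.V = n → R.Continuous →
      R.Semisimple → R ∈ 𝒪.orig X := by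
    intro n
    induction n using Nat.strong_induction_on with
    | _ n ih =>
      intro R hn hR hs
      rcases subsingleton_or_nontrivial R.V with h0 | h0
      · refine (𝒪.closed X).quot _ R (irr_one h) ⟨0, fun v => ⟨0, Subsingleton.elim _ _⟩, ?_⟩
        intro g v
        exact Subsingleton.elim _ _
      · obtain ⟨W, hW, hW0, hW1⟩ := exists_irr_sub R.ρ
        obtain ⟨W', hW', hc⟩ := hs W hW
        have h1 : R.onSub W hW ∈ 𝒪.orig X := h _ (Cont.sub hR W hW) hW1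
        have h2 : R.onSub W' hW' ∈ 𝒪.orig X := by
          refine ih (finrank K W') ?_ _ rfl (Cont.sub hR W' hW') (semisimple_sub hs W' hW')
          rw [← hn]
          refine Submodule.finrank_lt fun h3 => hW0 ?_
          have h4 := hc.1
          rw [h3] at h4
          exact disjoint_top.1 h4
        refine 𝒪.sum X R _ _ W.subtype W'.subtype (fun _ _ => rfl) (fun _ _ => rfl) ?_ h1 h2
        rw [Submodule.range_subtype, Submodule.range_subtype]
        exact codisjoint_iff.1 hc.2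
  exact fun R hR hs => key _ R rfl hR hs

theorem irr_of_rfm {X : 𝒱.Obj} (h : 𝒪.RFM X) : 𝒪.Irr X := by
  intro R hR hI
  refine h R hR fun W hW => ?_
  rcases hI.2 W hW with h1 | h1
  · exact ⟨⊤, fun _ _ _ => Submodule.mem_top, by rw [h1]; exact isCompl_bot_top⟩
  · exact ⟨⊥, fun g w hw => by
      rw [(Submodule.mem_bot K).1 hw, map_zero]
      exact zero_mem _, by rw [h1]; exact isCompl_top_bot⟩

end RelOrigin

end Pool.Agent.Run7.h293.FB
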