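import Pool.Agent.Run7.h293.FB.Rel

/-!
# Quasi-geometric and geometric flat bundles: fibrations and products
-/

set_option autoImplicit false

namespace Pool.Agent.Run7.h293.FB

open Module FRep

section general

variable {K : Type} [Field K]

/-- The quotient by a stable subspace. -/
abbrev FRep.onQuo {G : Type} [Group G] (R : FRep K G) (W : Submodule K R.V)
    (h : Stable R.ρ W) : FRep K G := ⟨R.V ⧸ W, quo R.ρ W h⟩

/-- The class is closed under subrepresentations and quotients. -/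
structure SubQuot {G : Type} [Group G] (C : Set (FRep K G)) : Prop where
  sub : ∀ R R', R ∈ C → IsSub R' R → R' ∈ C
  quot : ∀ R R', R ∈ C → IsQuot R' R → R' ∈ C

/-- **Dévissage** inside a class of representations. -/
theorem exists_irr_pair_class {G Q : Type} [Group G] [Group Q] {p : G →* Q} {B R : FRep K G}
    {C : Set (FRep K Q)} (hC : SubQuot C) (n : ℕ) :
    ∀ (M : FRep K Q) (F : M.V →ₗ[K] B.V →ₗ[K] R.V), finrank K M.V = n → M ∈ C →
      Pair p B.ρ M.ρ R.ρ F → F ≠ 0 →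
    ∃ (M' : FRep K Q) (F' : M'.V →ₗ[K] B.V →ₗ[K] R.V), M' ∈ C ∧ M'.Irreducible ∧
      Pair p B.ρ M'.ρ R.ρ F' ∧ F' ≠ 0 := by
  classical
  induction n using Nat.strong_induction_on with
  | _ n ih =>
    intro M F hn hM hF h0
    by_cases hI : M.Irreducible
    · exact ⟨M, F, hM, hI, hF, h0⟩
    · have hnt : Nontrivial M.V := by
        by_contra hcon
        rw [not_nontrivial_iff_subsingleton] at hcon
        exact h0 (by ext m; rw [Subsingleton.elim m 0]; simp)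
      have h2 : ∃ U : Submodule K M.V, Stable M.ρ U ∧ U ≠ ⊥ ∧ U ≠ ⊤ := by
        by_contra hcon
        push Not at hcon
        exact hI ⟨hnt, fun U hU => by
          by_cases hb : U = ⊥
          · exact Or.inl hb
          · exact Or.inr (hcon U hU hb)⟩
      obtain ⟨U, hU, hb, ht⟩ := h2
      by_cases h3 : F.comp U.subtype = 0
      · have h4 : U ≤ LinearMap.ker F := by
          intro u hu
          have := LinearMap.congr_fun h3 ⟨u, hu⟩
          exact this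
        refine ih (finrank K (M.V ⧸ U)) ?_ (M.onQuo U hU) (U.liftQ F h4) rfl
          (hC.quot M _ hM ⟨U.mkQ, U.mkQ_surjective, fun _ _ => rfl⟩) ?_ ?_
        · have h5 := U.finrank_quotient_add_finrank
          have h6 : 0 < finrank K U := by
            rw [Nat.pos_iff_ne_zero]
            intro h7
            exact hb (Submodule.finrank_eq_zero.1 h7)
          omega
        · intro g m b
          obtain ⟨m, rfl⟩ := U.mkQ_surjective m
          exact hF g m b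
        · intro h5
          apply h0
          ext m b
          have := LinearMap.congr_fun (LinearMap.congr_fun h5 (U.mkQ m)) b
          exact this
      · refine ih (finrank K U) ?_ (M.onSub U hU) (F.comp U.subtype) rfl
          (hC.sub M _ hM ⟨U.subtype, U.injective_subtype, fun _ _ => rfl⟩) ?_ h3
        · rw [← hn]
          exact Submodule.finrank_lt ht
        · intro g m b
          exact hF g m b

/-- The direct image of `Hom(B, R)` on the base: the homomorphisms from `B` to `R` which are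
equivariant for the fundamental group of the fibre, with the action of the fundamental group of the
base. -/
noncomputable def pushHom {G Q : Type} [Group G] [Group Q] {p : G →* Q}
    (hp : Function.Surjective p) (B R : FRep K G) : FRep K Q := ⟨fix p B.ρ R.ρ, act hp B.ρ R.ρ⟩

/-- Schur's lemma. -/
theorem finrank_fix [IsAlgClosed K] {G Q : Type} [Group G] [Group Q] {p : G →* Q} {B R : FRep K G}
    [Nontrivial R.V] (hR : ∀ W : Submodule K R.V, (∀ n ∈ p.ker, ∀ w ∈ W, R.ρ n w ∈ W) →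
      W = ⊥ ∨ W = ⊤) (e : B.V ≃ₗ[K] R.V) (he : ∀ n ∈ p.ker, ∀ b, e (B.ρ n b) = R.ρ n (e b)) :
    finrank K (fix p B.ρ R.ρ) = 1 := by
  have hmem : (e : B.V →ₗ[K] R.V) ∈ fix p B.ρ R.ρ := he
  refine finrank_eq_one (⟨e, hmem⟩ : fix p B.ρ R.ρ) ?_ ?_
  · intro h0
    obtain ⟨v, hv⟩ := exists_ne (0 : R.V)
    apply hv
    have h1 := LinearMap.congr_fun (congrArg Subtype.val h0) (e.symm v)
    simpa using h1
  · rintro ⟨ψ, hψ⟩
    let T : Module.End K R.V := ψ.comp (e.symm : R.V →ₗ[K] B.V)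
    obtain ⟨c, hc⟩ := Module.End.exists_eigenvalue T
    refine ⟨c, ?_⟩
    have hT : ∀ n ∈ p.ker, ∀ v, T (R.ρ n v) = R.ρ n (T v) := by
      intro n hn v
      have h1 : e.symm (R.ρ n v) = B.ρ n (e.symm v) := by
        rw [LinearEquiv.symm_apply_eq, he n hn, LinearEquiv.apply_symm_apply]
      change ψ (e.symm (R.ρ n v)) = R.ρ n (ψ (e.symm v))
      rw [h1, hψ n hn]
    have h2 : Module.End.eigenspace T c = ⊤ := by
      refine (hR _ ?_).resolve_left hc
      intro n hn w hw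
      rw [Module.End.mem_eigenspace_iff] at hw ⊢
      rw [hT n hn, hw, map_smul]
    apply Subtype.ext
    ext b
    have h3 : e b ∈ Module.End.eigenspace T c := h2 ▸ Submodule.mem_top
    rw [Module.End.mem_eigenspace_iff] at h3
    change ψ (e.symm (e b)) = c • e b at h3
    rw [LinearEquiv.symm_apply_apply] at h3
    change c • e b = ψ b
    rw [h3]

/-- The irreducible representations of a commutative group are of dimension one. -/
theorem finrank_of_comm [IsAlgClosed K] {G : Type} [Group G] (hG : ∀ a b : G, a * b = b * a)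
    {R : FRep K G} (hR : R.Irreducible) : finrank K R.V = 1 := by
  have hnt : Nontrivial R.V := hR.1
  have h1 : ∀ g : G, ∃ c : K, ∀ v, R.ρ g v = c • v := by
    intro g
    obtain ⟨c, hc⟩ := Module.End.exists_eigenvalue (R.ρ g)
    have h2 : Module.End.eigenspace (R.ρ g) c = ⊤ := by
      refine (hR.2 _ ?_).resolve_left hc
      intro a w hw
      rw [Module.End.mem_eigenspace_iff] at hw ⊢
      rw [← Module.End.mul_apply, ← map_mul, hG g a, map_mul, Module.End.mul_apply, hw, map_smul]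
    exact ⟨c, fun v => Module.End.mem_eigenspace_iff.1 (h2 ▸ Submodule.mem_top)⟩
  obtain ⟨v, hv⟩ := exists_ne (0 : R.V)
  have h3 : Submodule.span K {v} = ⊤ := by
    refine (hR.2 _ ?_).resolve_left ?_
    · intro g w hw
      obtain ⟨c, hc⟩ := h1 g
      rw [hc]
      exact Submodule.smul_mem _ _ hw
    · intro h0
      exact hv (Submodule.span_singleton_eq_bot.1 h0)
  rw [← finrank_top K R.V, ← h3]
  exact finrank_span_singleton hv

end general

/-- The representation `Hom(B, R)`. -/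
noncomputable abbrev FRep.hom {K : Type} [Field K] {G : Type} [Group G] (B R : FRep K G) :
    FRep K G := ⟨B.V →ₗ[K] R.V, Representation.linHom B.ρ R.ρ⟩

/-- The restriction of `R` to the kernel of `p` (along `g`) is irreducible: to the fibres of
`U' → S'`. -/
def IrrOnFibre {K : Type} [Field K] {𝒱 : Varieties} {U' U S' : 𝒱.Obj} (g : 𝒱.grp U' →* 𝒱.grp U)
    (p : 𝒱.grp U' →* 𝒱.grp S') (R : FRep K (𝒱.grp U)) : Prop :=
  ∀ W : Submodule K R.V, (∀ n ∈ p.ker, ∀ w ∈ W, R.ρ (g n) w ∈ W) → W = ⊥ ∨ W = ⊤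

/-- Formal properties of the quasi-geometric and of the geometric flat bundles on the smooth
varieties (or Deligne-Mumford stacks) over `ℚ̄`. `K` is the field of complex numbers, and `grp` is
the topological fundamental group of the complex points. -/
structure FlatBundles (K : Type) [Field K] (𝒱 : Varieties) where
  /-- the dimension -/
  dim : 𝒱.Obj → ℕ
  /-- the bundles with quasi-geometric irreducible constituents -/
  quasi : ∀ X : 𝒱.Obj, Set (FRep K (𝒱.grp X))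
  /-- the geometric bundles -/
  geo : ∀ X : 𝒱.Obj, Set (FRep K (𝒱.grp X))
  /-- geometric bundles have quasi-geometric constituents -/
  geo_quasi : ∀ X, geo X ⊆ quasi X
  /-- subquotients -/
  quasi_closed : ∀ X, SubQuot (quasi X)
  /-- subquotients and tensor products -/
  geo_closed : ∀ X, Closed (geo X)
  /-- direct sums -/
  geo_sum : ∀ X, SumClosed (geo X)
  /-- the trivial bundle -/
  geo_unit : ∀ X, RelOrigin.unit K (𝒱.grp X) ∈ geo X
  /-- pullback -/
  dom_quasi : ∀ {X Y : 𝒱.Obj} {f : 𝒱.grp X →* 𝒱.grp Y}, 𝒱.Dom f → ∀ R ∈ quasi Y,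
    R.comap f ∈ quasi X
  /-- pullback -/
  dom_geo : ∀ {X Y : 𝒱.Obj} {f : 𝒱.grp X →* 𝒱.grp Y}, 𝒱.Dom f → ∀ R ∈ geo Y,
    R.comap f ∈ geo X
  /-- restriction to a section of a product -/
  sec_quasi : ∀ {X Y P : 𝒱.Obj} {p₁ : 𝒱.grp P →* 𝒱.grp X} {p₂ : 𝒱.grp P →* 𝒱.grp Y}
    {σ : 𝒱.grp X →* 𝒱.grp P}, 𝒱.IsProduct X Y P p₁ p₂ σ → ∀ R ∈ quasi P, R.comap σ ∈ quasi X
  /-- direct images: if the pullback of `M` by the fibration `p` is a subbundle of `Hom(B, R)`, then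
  `M` has quasi-geometric constituents -/
  push : ∀ {U S : 𝒱.Obj} {p : 𝒱.grp U →* 𝒱.grp S}, 𝒱.Fib p → ∀ B ∈ quasi U, ∀ R ∈ quasi U,
    ∀ M : FRep K (𝒱.grp S), IsSub (M.comap p) (B.hom R) → M ∈ quasi S
  /-- direct images: an irreducible bundle is geometric if its pullback has a nonzero geometric
  subbundle -/
  descend : ∀ {X' X : 𝒱.Obj} {f : 𝒱.grp X' →* 𝒱.grp X}, 𝒱.Dom f → ∀ R : FRep K (𝒱.grp X),
    R.Irreducible → ∀ W : FRep K (𝒱.grp X'), Nontrivial W.V → IsSub W (R.comap f) →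
    W ∈ geo X' → R ∈ geo X
  /-- Simpson's theorem for rank one -/
  rank_one : ∀ X, ∀ R ∈ quasi X, finrank K R.V = 1 → R ∈ geo X

namespace FlatBundles

variable {K : Type} [Field K] {𝒱 : Varieties} (ℱ : FlatBundles K 𝒱)

/-- **Q1 for the bundles on `X`**: semisimple quasi-geometric bundles are geometric. -/
def Q1 (X : 𝒱.Obj) : Prop := ∀ R ∈ ℱ.quasi X, R.Semisimple → R ∈ ℱ.geo X

/-- Q1 for irreducible bundles -/
def Irr (X : 𝒱.Obj) : Prop := ∀ R ∈ ℱ.quasi X, R.Irreducible → R ∈ ℱ.geo X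

/-- Restriction to the geometric generic fibre of a fibration, and spreading out. -/
structure Spreading where
  /-- the restriction of the bundle on `U` to the geometric generic fibre of `U → S` is geometric -/
  FibGeo : ∀ {U S : 𝒱.Obj} (_ : 𝒱.grp U →* 𝒱.grp S), Set (FRep K (𝒱.grp U))
  /-- spreading out: after a generically finite base change `S' → S` there is on the geometric
  generic fibre a nonzero homomorphism to `R` from a geometric bundle `B` on `U'` -/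
  spread : ∀ {U S : 𝒱.Obj} {p : 𝒱.grp U →* 𝒱.grp S}, 𝒱.Fib p → ∀ R ∈ FibGeo p, R ∈ ℱ.quasi U →
    Nontrivial R.V → ∃ (U' S' : 𝒱.Obj) (g : 𝒱.grp U' →* 𝒱.grp U) (p' : 𝒱.grp U' →* 𝒱.grp S'),
      𝒱.Dom g ∧ 𝒱.Fib p' ∧ ℱ.dim S' = ℱ.dim S ∧
      ∃ B ∈ ℱ.geo U', ∃ φ : B.V →ₗ[K] R.V, φ ≠ 0 ∧ Origin.FibreMap g p' B R φ

/-- Fibrations whose fibres are open subsets of the projective line, and Katz's theorem. -/
structure Katz where
  /-- the fibres of `U → S` are open subsets of the projective line, and the restriction of the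
  bundle on `U` to the fibres is irreducible and rigid -/
  RigidFibre : ∀ {U S : 𝒱.Obj} (_ : 𝒱.grp U →* 𝒱.grp S), Set (FRep K (𝒱.grp U))
  /-- Katz's theorem over the base: middle convolutions give, after a generically finite base change
  `S' → S`, a geometric bundle `B` on `U'` with a restriction to the fibre isomorphic to that of
  `R` (which is irreducible) -/
  katz : ∀ {U S : 𝒱.Obj} {p : 𝒱.grp U →* 𝒱.grp S}, 𝒱.Fib p → ∀ R ∈ RigidFibre p,
    R ∈ ℱ.quasi U → ∃ (U' S' : 𝒱.Obj) (g : 𝒱.grp U' →* 𝒱.grp U) (p' : 𝒱.grp U' →* 𝒱.grp S'),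
      𝒱.Dom g ∧ 𝒱.Fib p' ∧ IrrOnFibre g p' R ∧
      ∃ B ∈ ℱ.geo U', ∃ φ : B.V →ₗ[K] R.V, Function.Bijective φ ∧ Origin.FibreMap g p' B R φ

variable {ℱ}

theorem push' {U S : 𝒱.Obj} {p : 𝒱.grp U →* 𝒱.grp S} (hp : 𝒱.Fib p) {B R : FRep K (𝒱.grp U)}
    (hB : B ∈ ℱ.quasi U) (hR : R ∈ ℱ.quasi U) :
    pushHom (𝒱.fib_quot hp).surjective B R ∈ ℱ.quasi S :=
  ℱ.push hp B hB R hR _ ⟨(fix p B.ρ R.ρ).subtype, (fix p B.ρ R.ρ).injective_subtype, by
    intro g (m : fix p B.ρ R.ρ)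
    have h1 : (act (𝒱.fib_quot hp).surjective B.ρ R.ρ (p g) m : B.V →ₗ[K] R.V) =
        Representation.linHom B.ρ R.ρ g (m : B.V →ₗ[K] R.V) := by
      rw [act_apply]
      ext b
      rw [conj_apply, Representation.linHom_apply]
      rfl
    exact h1⟩

theorem img_geo {U S : 𝒱.Obj} {p : 𝒱.grp U →* 𝒱.grp S} (hp : 𝒱.Fib p) {B R : FRep K (𝒱.grp U)}
    {M : FRep K (𝒱.grp S)} {F : M.V →ₗ[K] B.V →ₗ[K] R.V} (hF : Pair p B.ρ M.ρ R.ρ F)
    (hB : B ∈ ℱ.geo U) (hM : M ∈ ℱ.geo S) : R.onSub (img F) (img_stable hF) ∈ ℱ.geo U := by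
  have h6 := (ℱ.geo_closed U).tensor _ _ hB (ℱ.dom_geo (𝒱.fib_dom hp) _ hM)
  refine (ℱ.geo_closed U).quot _ _ h6 ⟨LinearMap.rangeRestrict (lift F),
    LinearMap.surjective_rangeRestrict _, ?_⟩
  intro g x
  apply Subtype.ext
  exact lift_equi hF g x

theorem core {U S : 𝒱.Obj} {p : 𝒱.grp U →* 𝒱.grp S} (hp : 𝒱.Fib p) (hS : ℱ.Irr S)
    {B R : FRep K (𝒱.grp U)} (hR : R ∈ ℱ.quasi U) (hB : B ∈ ℱ.geo U) {φ : B.V →ₗ[K] R.V}
    (hφ : φ ≠ 0) (hN : ∀ n ∈ p.ker, ∀ b, φ (B.ρ n b) = R.ρ n (φ b)) :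
    ∃ (W : Submodule K R.V) (h : Stable R.ρ W), W ≠ ⊥ ∧ R.onSub W h ∈ ℱ.geo U := by
  have hφ' : φ ∈ fix p B.ρ R.ρ := hN
  obtain ⟨M, F, h1, h2, h3, h4⟩ := exists_irr_pair_class (ℱ.quasi_closed S) _
    (pushHom (𝒱.fib_quot hp).surjective B R) (fix p B.ρ R.ρ).subtype rfl
    (push' hp (ℱ.geo_quasi U hB) hR) (pair_act _ B.ρ R.ρ)
    (fun h0 => hφ (LinearMap.congr_fun h0 ⟨φ, hφ'⟩))
  exact ⟨img F, img_stable h3, img_ne h4, img_geo hp h3 hB (hS M h1 h2)⟩

theorem criterion {X U S : 𝒱.Obj} {f : 𝒱.grp U →* 𝒱.grp X} (hf : 𝒱.Dom f)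
    {p : 𝒱.grp U →* 𝒱.grp S} (hp : 𝒱.Fib p) (hS : ℱ.Irr S) {R : FRep K (𝒱.grp X)}
    (hR : R ∈ ℱ.quasi X) (hI : R.Irreducible) {B : FRep K (𝒱.grp U)} (hB : B ∈ ℱ.geo U)
    {φ : B.V →ₗ[K] R.V} (hφ : φ ≠ 0) (hN : Origin.FibreMap f p B R φ) : R ∈ ℱ.geo X := by
  obtain ⟨W, h, h1, h2⟩ := core (R := R.comap f) hp hS (ℱ.dom_quasi hf R hR) hB (φ := φ) hφ hN
  exact ℱ.descend hf R hI _ (Origin.nontrivial_onSub (R.comap f) W h h1)
    (Origin.isSub_onSub (R.comap f) W h) h2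

/-- rigid restriction to the fibre: no hypothesis on the base -/
theorem rigid_fibre [IsAlgClosed K] (T : ℱ.Katz) {X U S : 𝒱.Obj}
    {f : 𝒱.grp U →* 𝒱.grp X} (hf : 𝒱.Dom f) {p : 𝒱.grp U →* 𝒱.grp S} (hp : 𝒱.Fib p)
    {R : FRep K (𝒱.grp X)} (hR : R ∈ ℱ.quasi X) (hI : R.Irreducible)
    (hT : R.comap f ∈ T.RigidFibre p) : R ∈ ℱ.geo X := by
  have hnt : Nontrivial R.V := hI.1
  have hq := ℱ.dom_quasi hf R hR
  obtain ⟨U', S', g, p', hg, hp', hir, B, hB, φ, hφ, hN⟩ := T.katz hp (R.comap f) hT hq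
  let e : B.V ≃ₗ[K] R.V := LinearEquiv.ofBijective φ hφ
  have he : ∀ n ∈ p'.ker, ∀ b, e (B.ρ n b) = (R.comap (f.comp g)).ρ n (e b) := hN
  have hfg := 𝒱.dom_comp hg hf
  have hq' := ℱ.dom_quasi hfg R hR
  have h1 : finrank K (fix p' B.ρ (R.comap (f.comp g)).ρ) = 1 :=
    finrank_fix (R := R.comap (f.comp g)) hir e he
  have h2 : pushHom (𝒱.fib_quot hp').surjective B (R.comap (f.comp g)) ∈ ℱ.geo S' :=
    ℱ.rank_one S' _ (push' hp' (ℱ.geo_quasi U' hB) hq') h1
  have h3 := pair_act (𝒱.fib_quot hp').surjective B.ρ (R.comap (f.comp g)).ρ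
  have h4 : (fix p' B.ρ (R.comap (f.comp g)).ρ).subtype ≠ 0 := by
    intro h0
    have h5 := LinearMap.congr_fun h0 ⟨(e : B.V →ₗ[K] R.V), he⟩
    obtain ⟨v, hv⟩ := exists_ne (0 : R.V)
    apply hv
    have h6 := LinearMap.congr_fun h5 (e.symm v)
    simpa using h6
  have h7 := img_geo hp' h3 hB h2
  have h8 := Origin.isSub_onSub (R.comap (f.comp g)) _ (img_stable h3)
  have h9 := Origin.nontrivial_onSub (R.comap (f.comp g)) _ (img_stable h3) (img_ne h4)
  exact ℱ.descend hfg R hI _ h9 h8 h7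

theorem geometric_fibre (T : ℱ.Spreading) {X U S : 𝒱.Obj} (hS : ∀ S', ℱ.dim S' = ℱ.dim S → ℱ.Irr S')
    {f : 𝒱.grp U →* 𝒱.grp X} (hf : 𝒱.Dom f) {p : 𝒱.grp U →* 𝒱.grp S} (hp : 𝒱.Fib p)
    {R : FRep K (𝒱.grp X)} (hR : R ∈ ℱ.quasi X) (hI : R.Irreducible)
    (hT : R.comap f ∈ T.FibGeo p) : R ∈ ℱ.geo X := by
  obtain ⟨U', S', g, p', hg, hp', hd, B, hB, φ, hφ, hN⟩ :=
    T.spread hp (R.comap f) hT (ℱ.dom_quasi hf R hR) hI.1
  exact criterion (𝒱.dom_comp hg hf) hp' (hS S' hd) hR hI hB hφ hN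

theorem product {X Y P : 𝒱.Obj} {p₁ : 𝒱.grp P →* 𝒱.grp X}
    {p₂ : 𝒱.grp P →* 𝒱.grp Y} {σ : 𝒱.grp X →* 𝒱.grp P} (hP : 𝒱.IsProduct X Y P p₁ p₂ σ)
    (hX : ℱ.Irr X) (hY : ℱ.Irr Y) : ℱ.Irr P := by
  intro R hρ hI
  have hnt : Nontrivial R.V := hI.1
  obtain ⟨W, hW, hW0, hW1⟩ := exists_irr_sub (R.comap σ).ρ
  have h2 : (R.comap σ).onSub W hW ∈ ℱ.quasi X :=
    (ℱ.quasi_closed X).sub _ _ (ℱ.sec_quasi hP R hρ) (Origin.isSub_onSub (R.comap σ) W hW)
  have h3 : ((R.comap σ).onSub W hW).comap p₁ ∈ ℱ.geo P :=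
    ℱ.dom_geo hP.dom _ (hX _ h2 hW1)
  obtain ⟨W', h, h4, h5⟩ := core hP.fib hY hρ h3
    (φ := W.subtype) (fun h0 => hW0 (by
      rw [Submodule.eq_bot_iff]
      intro w hw
      exact LinearMap.congr_fun h0 ⟨w, hw⟩)) (fun n hn b => by
        change R.ρ (σ (p₁ n)) (b.1 : R.V) = R.ρ n b.1
        rw [hP.kunneth n hn])
  have h6 : W' = ⊤ := (hI.2 W' h).resolve_left h4
  exact (ℱ.geo_closed P).quot _ _ h5 ⟨W'.subtype, fun v => ⟨⟨v, h6 ▸ Submodule.mem_top⟩, rfl⟩,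
    fun _ _ => rfl⟩

theorem irr_of_built {𝒞 : Set 𝒱.Obj} (h𝒞 : ∀ X ∈ 𝒞, ℱ.Irr X) {X : 𝒱.Obj}
    (hX : RelOrigin.BuiltFrom 𝒞 X) : ℱ.Irr X := by
  induction hX with
  | base X h => exact h𝒞 X h
  | prod X Y P p₁ p₂ σ hP _ _ hX hY => exact product hP hX hY
  | dominated X' X f hf _ hX' =>
    intro R hρ hI
    have hnt : Nontrivial R.V := hI.1
    obtain ⟨W, hW, hW0, hW1⟩ := exists_irr_sub (R.comap f).ρ
    exact ℱ.descend hf R hI _ (Origin.nontrivial_onSub (R.comap f) W hW hW0)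
      (Origin.isSub_onSub (R.comap f) W hW)
      (hX' _ ((ℱ.quasi_closed X').sub _ _ (ℱ.dom_quasi hf R hρ)
        (Origin.isSub_onSub (R.comap f) W hW)) hW1)

/-- virtually abelian fundamental groups -/
theorem irr_of_comm [IsAlgClosed K] {X' X : 𝒱.Obj} {f : 𝒱.grp X' →* 𝒱.grp X} (hf : 𝒱.Dom f)
    (hc : ∀ a b : 𝒱.grp X', a * b = b * a) : ℱ.Irr X := by
  intro R hR hI
  have hnt : Nontrivial R.V := hI.1
  obtain ⟨W, hW, hW0, hW1⟩ := exists_irr_sub (R.comap f).ρ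
  exact ℱ.descend hf R hI _ (Origin.nontrivial_onSub (R.comap f) W hW hW0)
    (Origin.isSub_onSub (R.comap f) W hW)
    (ℱ.rank_one X' _ ((ℱ.quasi_closed X').sub _ _ (ℱ.dom_quasi hf R hR)
      (Origin.isSub_onSub (R.comap f) W hW)) (finrank_of_comm hc hW1))

theorem q1_of_irr {X : 𝒱.Obj} (h : ℱ.Irr X) : ℱ.Q1 X := by
  have key : ∀ (n : ℕ) (R : FRep K (𝒱.grp X)), finrank K R.V = n → R ∈ ℱ.quasi X →
      R.Semisimple → R ∈ ℱ.geo X := by
    intro n
    induction n using Nat.strong_induction_on with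
    | _ n ih =>
      intro R hn hR hs
      rcases subsingleton_or_nontrivial R.V with h0 | h0
      · refine (ℱ.geo_closed X).quot _ R (ℱ.geo_unit X) ⟨0, fun v => ⟨0, Subsingleton.elim _ _⟩, ?_⟩
        intro g v
        exact Subsingleton.elim _ _
      · obtain ⟨W, hW, hW0, hW1⟩ := exists_irr_sub R.ρ
        obtain ⟨W', hW', hc⟩ := hs W hW
        have h1 : R.onSub W hW ∈ ℱ.geo X := h _ ((ℱ.quasi_closed X).sub _ _ hR
          (Origin.isSub_onSub R W hW)) hW1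
        have h2 : R.onSub W' hW' ∈ ℱ.geo X := by
          refine ih (finrank K W') ?_ _ rfl ((ℱ.quasi_closed X).sub _ _ hR
            (Origin.isSub_onSub R W' hW')) (RelOrigin.semisimple_sub hs W' hW')
          rw [← hn]
          refine Submodule.finrank_lt fun h3 => hW0 ?_
          have h4 := hc.1
          rw [h3] at h4
          exact disjoint_top.1 h4
        refine ℱ.geo_sum X R _ _ W.subtype W'.subtype (fun _ _ => rfl) (fun _ _ => rfl) ?_ h1 h2
        rw [Submodule.range_subtype, Submodule.range_subtype]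
        exact codisjoint_iff.1 hc.2
  exact fun R hR hs => key _ R rfl hR hs

theorem irr_of_q1 {X : 𝒱.Obj} (h : ℱ.Q1 X) : ℱ.Irr X := by
  intro R hR hI
  refine h R hR fun W hW => ?_
  rcases hI.2 W hW with h1 | h1
  · exact ⟨⊤, fun _ _ _ => Submodule.mem_top, by rw [h1]; exact isCompl_bot_top⟩
  · exact ⟨⊥, fun g w hw => by
      rw [(Submodule.mem_bot K).1 hw, map_zero]
      exact zero_mem _, by rw [h1]; exact isCompl_top_bot⟩

end FlatBundles

end Pool.Agent.Run7.h293.FB
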